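import Pool.Agent.H96.HK.Basic

/-! CTR (helper56): contraction and positivity of the heat kernel of the surface. -/

open MeasureTheory Set Filter Topology
open Pool.Agent.H96.HK

namespace Pool.Agent.H56.HK

/-- the fundamental strip -/
abbrev Str : Set X := {z : X | z.2 ∈ Ioc 0 (Real.pi / 2)}

theorem str_meas : MeasurableSet Str := measurableSet_Ioc.preimage measurable_snd

theorem str_int {g : X → ℝ} (hg : Continuous g) (R : ℝ) (h0 : ∀ p : X, R ≤ |p.1| → g p = 0) :
    IntegrableOn g Str := by
  have hC : IsCompact (Icc (-R) R ×ˢ Icc 0 (Real.pi / 2) : Set X) :=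
    isCompact_Icc.prod isCompact_Icc
  refine (hg.continuousOn.integrableOn_compact hC).of_forall_diff_eq_zero str_meas ?_
  rintro z ⟨hz1, hz2⟩
  apply h0
  by_contra hlt
  push Not at hlt
  apply hz2
  exact ⟨abs_le.1 hlt.le, ⟨hz1.1.le, hz1.2⟩⟩

theorem hm_cont_right {F : ℝ → ℝ} {K : ℕ → ℝ → ℝ → ℝ → ℝ} (hser : T_SER1) (hF : Prof F)
    (hK : Modes F K) {t : ℝ} (ht : 0 < t) (p : X) : Continuous (fun z => HM F K t p z) := by
  have h1 := (hser F K hF hK).1
  have h2 : Continuous (fun z : X => ((t, p, z) : ℝ × X × X)) := by fun_prop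
  exact h1.comp_continuous h2 (fun z => ⟨ht, mem_univ _⟩)

theorem hm_inv_right {F : ℝ → ℝ} {K : ℕ → ℝ → ℝ → ℝ → ℝ} (hser : T_SER1) (hF : Prof F)
    (hK : Modes F K) {t : ℝ} (ht : 0 < t) (p : X) : GInv (fun z => HM F K t p z) := by
  obtain ⟨-, h2, h3⟩ := hser F K hF hK
  intro z
  change HM F K t p (g0 z) = HM F K t p z
  rw [h2 t ht p, h2 t ht p]
  exact h3 t ht p z

theorem trg_facts {F : ℝ → ℝ} {K : ℕ → ℝ → ℝ → ℝ → ℝ} (hpd : T_PD) (hF : Prof F)
    (hK : Modes F K) {N : ℕ} {a b : ℕ → ℝ → ℝ} (ha : Coef a) (hb : Coef b) :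
    Continuous (trg N a b) ∧ GInv (trg N a b) := by
  obtain ⟨h1, h2, -⟩ := hpd F K hF hK N a b ha hb
  have h3 : trg N a b = utr F K N a b 0 := funext fun p => (h2 p).symm
  constructor
  · rw [h3]
    have h4 : Continuous (fun z : X => ((0, z) : ℝ × X)) := by fun_prop
    exact h1.cont.comp_continuous h4 (fun z => ⟨le_refl (0 : ℝ), mem_univ _⟩)
  · rw [h3]
    exact h1.inv 0 le_rfl

/-- one-sided estimate -/
theorem ctr_le {F : ℝ → ℝ} {K : ℕ → ℝ → ℝ → ℝ → ℝ} (hpd : T_PD) (htrig : T_TRIG)
    (hser : T_SER1) (hjet : T_JET) (hcmp : T_CMP) (hF : Prof F) (hK : Modes F K)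
    {f : X → ℝ} (hf : Continuous f) (hfi : GInv f) {R : ℝ} (hR : ∀ p : X, R ≤ |p.1| → f p = 0)
    {M : ℝ} (hM0 : 0 ≤ M) (hM : ∀ p, f p ≤ M) {t : ℝ} (ht : 0 < t) (p : X) :
    ∫ z in Str, HM F K t p z * f z * F z.1 ≤ M := by
  have hHc := hm_cont_right hser hF hK ht p
  have hFc : Continuous (fun z : X => F z.1) := hF.continuous.comp continuous_fst
  -- the constant
  let g : X → ℝ := fun z => |HM F K t p z| * |F z.1| * max 0 (min 1 (|R| + 1 - |z.1|))
  have hgc : Continuous g := by
    have h1 : Continuous (fun z : X => max 0 (min 1 (|R| + 1 - |z.1|))) := by fun_prop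
    exact (hHc.abs.mul hFc.abs).mul h1
  have hgi : IntegrableOn g Str := by
    refine str_int hgc (|R| + 1) fun z hz => ?_
    have h1 : max 0 (min 1 (|R| + 1 - |z.1|)) = 0 := by
      apply max_eq_left
      exact (min_le_right _ _).trans (by linarith)
    change _ * max 0 (min 1 (|R| + 1 - |z.1|)) = 0
    rw [h1, mul_zero]
  have key : ∀ η > 0, ∫ z in Str, HM F K t p z * f z * F z.1 ≤ M + η + η * ∫ z in Str, g z := by
    intro η hη
    obtain ⟨N, a, b, ha, hb, hab, hfab⟩ := htrig f hf hfi R hR η hη
    obtain ⟨hnice, hu0, hut⟩ := hpd F K hF hK N a b ha hb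
    obtain ⟨htc, hti⟩ := trg_facts hpd hF hK (N := N) ha hb
    have ht0 : ∀ q : X, R ≤ |q.1| → trg N a b q = 0 := by
      intro q hq
      unfold trg
      refine Finset.sum_eq_zero fun n _ => ?_
      obtain ⟨h1, h2⟩ := hab n q.1 hq
      rw [h1, h2, zero_mul, zero_mul, add_zero]
    -- comparison
    have hv := hcmp F 0 t (fun τ q => utr F K N a b τ q + -(M + η)) hF.pos ht ?_ ?_ ?_ ?_ ?_ t
      ⟨ht.le, le_rfl⟩ p
    · have h1 : utr F K N a b t p ≤ M + η := by
        change utr F K N a b t p + -(M + η) ≤ 0 at hv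
        linarith
      rw [hut t ht p] at h1
      have hi1 : IntegrableOn (fun z => HM F K t p z * f z * F z.1) Str := by
        refine str_int ((hHc.mul hf).mul hFc) R fun z hz => ?_
        change HM F K t p z * f z * F z.1 = 0
        rw [hR z hz, mul_zero, zero_mul]
      have hi2 : IntegrableOn (fun z => HM F K t p z * trg N a b z * F z.1) Str := by
        refine str_int ((hHc.mul htc).mul hFc) R fun z hz => ?_
        change HM F K t p z * trg N a b z * F z.1 = 0
        rw [ht0 z hz, mul_zero, zero_mul]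
      have h2 : (∫ z in Str, HM F K t p z * f z * F z.1) -
          ∫ z in Str, HM F K t p z * trg N a b z * F z.1 ≤ η * ∫ z in Str, g z := by
        rw [← integral_sub hi1 hi2, ← integral_const_mul]
        refine integral_mono (hi1.sub hi2) (hgi.const_mul η) fun z => ?_
        change HM F K t p z * f z * F z.1 - HM F K t p z * trg N a b z * F z.1 ≤
          η * (|HM F K t p z| * |F z.1| * max 0 (min 1 (|R| + 1 - |z.1|)))
        by_cases hz : R ≤ |z.1|
        · rw [hR z hz, ht0 z hz, mul_zero, zero_mul, sub_zero]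
          positivity
        · push Not at hz
          have h3 : max 0 (min 1 (|R| + 1 - |z.1|)) = 1 := by
            have h4 : R ≤ |R| := le_abs_self R
            rw [min_eq_left (by linarith), max_eq_right zero_le_one]
          rw [h3, mul_one]
          have h5 : HM F K t p z * f z * F z.1 - HM F K t p z * trg N a b z * F z.1 =
              (HM F K t p z * F z.1) * (f z - trg N a b z) := by ring
          rw [h5]
          refine (le_abs_self _).trans ?_
          rw [abs_mul, abs_mul, mul_comm η]
          exact mul_le_mul_of_nonneg_left (hfab z) (by positivity)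
      linarith
    · have h1 : ContinuousOn (fun z : ℝ × X => utr F K N a b z.1 z.2) (Icc 0 t ×ˢ univ) :=
        hnice.cont.mono (prod_mono Icc_subset_Ici_self subset_rfl)
      exact h1.add continuousOn_const
    · intro τ hτ q
      change utr F K N a b τ (g0 q) + _ = utr F K N a b τ q + _
      rw [hnice.inv τ hτ.1 q]
    · intro ε hε
      obtain ⟨R', hR'⟩ := hnice.dec t ht ε hε
      refine ⟨R', fun τ hτ q hq => ?_⟩
      have h1 := (abs_le.1 (hR' τ hτ q hq)).2
      change utr F K N a b τ q + -(M + η) ≤ ε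
      linarith
    · intro q
      change utr F K N a b 0 q + -(M + η) ≤ 0
      rw [hu0 q]
      have h1 := (abs_le.1 (hfab q)).1
      have h2 := hM q
      linarith
    · intro τ hτ q _
      refine ⟨0, ?_⟩
      rw [gk_zero]
      have h1 : SubJet F (utr F K N a b) τ q :=
        hjet.cls F _ τ q _ (hnice.cl.c2 τ hτ.1).contDiffAt (hnice.cl.heat τ hτ.1 q) le_rfl
      exact hjet.add F _ _ τ q h1 (hjet.cst F (-(M + η)) τ q)
  -- let `η` tend to zero
  have hJ : 0 ≤ ∫ z in Str, g z := by
    refine integral_nonneg fun z => ?_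
    change 0 ≤ |HM F K t p z| * |F z.1| * max 0 (min 1 (|R| + 1 - |z.1|))
    positivity
  refine le_of_forall_pos_le_add fun ε hε => ?_
  have hd : 0 < 1 + ∫ z in Str, g z := by linarith
  have h1 := key (ε / (1 + ∫ z in Str, g z)) (by positivity)
  have h2 : M + ε / (1 + ∫ z in Str, g z) + ε / (1 + ∫ z in Str, g z) * ∫ z in Str, g z =
      M + ε := by
    field_simp
    ring
  rw [h2] at h1
  exact h1

theorem ctr (hpd : T_PD) (htrig : T_TRIG) (hser : T_SER1) (hjet : T_JET) (hcmp : T_CMP)
    (hunf : T_UNF) : T_CTR := by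
  intro F K hF hK
  constructor
  · intro t ht p q
    by_contra hneg
    push Not at hneg
    have hHc := hm_cont_right hser hF hK ht p
    have hFc : Continuous (fun z : X => F z.1) := hF.continuous.comp continuous_fst
    have hU : IsOpen {z : X | HM F K t p z < 0} := isOpen_lt hHc continuous_const
    obtain ⟨r, hr, hball⟩ := Metric.isOpen_iff.1 hU q hneg
    let ψ : X → ℝ := fun z => max 0 (r / 2 - dist z q)
    have hψc : Continuous ψ := by
      change Continuous (fun z : X => max 0 (r / 2 - dist z q))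
      fun_prop
    have hψs : HasCompactSupport ψ := by
      refine HasCompactSupport.intro (isCompact_closedBall q r) fun z hz => ?_
      rw [Metric.mem_closedBall, not_le] at hz
      exact max_eq_left (by linarith)
    have hψ0 : ∀ z, 0 ≤ ψ z := fun z => le_max_left _ _
    obtain ⟨h1, h2, ⟨R, h3⟩, h4⟩ := hunf F hF (fun z => HM F K t p z) hHc
      (hm_inv_right hser hF hK ht p) ψ hψc hψs
    have h5 := ctr_le hpd htrig hser hjet hcmp hF hK (f := fun z => -∑' k : ℤ, ψ (gk k z))
      h1.neg (fun z => by
        have h9 : ∑' k : ℤ, ψ (gk k (g0 z)) = ∑' k : ℤ, ψ (gk k z) := h2 z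
        change -(∑' k : ℤ, ψ (gk k (g0 z))) = -(∑' k : ℤ, ψ (gk k z))
        rw [h9]) (R := R) (fun z hz => by
          change -(∑' k : ℤ, ψ (gk k z)) = 0
          rw [h3 z hz, neg_zero]) le_rfl
      (fun z => by
        change -(∑' k : ℤ, ψ (gk k z)) ≤ 0
        rw [neg_nonpos]
        exact tsum_nonneg fun k => hψ0 _) ht p
    have h6 : ∫ z in Str, HM F K t p z * (-∑' k : ℤ, ψ (gk k z)) * F z.1 =
        -∫ z in Str, HM F K t p z * (∑' k : ℤ, ψ (gk k z)) * F z.1 := by
      rw [← integral_neg]
      refine integral_congr_ae (Eventually.of_forall fun z => ?_)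
      change HM F K t p z * (-∑' k : ℤ, ψ (gk k z)) * F z.1 = _
      ring
    rw [h6, neg_nonpos] at h5
    have h7 : 0 ≤ ∫ z : X, HM F K t p z * ψ z * F z.1 := by
      rw [h4]
      exact h5
    -- but it is negative
    have h8 : 0 < ∫ z : X, -(HM F K t p z * ψ z * F z.1) := by
      refine Continuous.integral_pos_of_hasCompactSupport_nonneg_nonzero (x := q)
        (((hHc.mul hψc).mul hFc).neg) ?_ ?_ ?_
      · refine HasCompactSupport.intro (isCompact_closedBall q r) fun z hz => ?_
        rw [Metric.mem_closedBall, not_le] at hz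
        have h9 : ψ z = 0 := max_eq_left (by linarith)
        change -(HM F K t p z * ψ z * F z.1) = 0
        rw [h9, mul_zero, zero_mul, neg_zero]
      · intro z
        change 0 ≤ -(HM F K t p z * ψ z * F z.1)
        rw [neg_nonneg]
        by_cases hz : dist z q < r
        · have h9 : HM F K t p z < 0 := hball hz
          have h10 := hF.pos z.1
          have h11 : HM F K t p z * ψ z ≤ 0 := mul_nonpos_of_nonpos_of_nonneg h9.le (hψ0 z)
          exact mul_nonpos_of_nonpos_of_nonneg h11 h10.le
        · push Not at hz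
          have h9 : ψ z = 0 := max_eq_left (by linarith)
          rw [h9, mul_zero, zero_mul]
      · have h9 : ψ q = r / 2 := by
          change max 0 (r / 2 - dist q q) = r / 2
          rw [dist_self, sub_zero]
          exact max_eq_right (by linarith)
        have h10 := hF.pos q.1
        change -(HM F K t p q * ψ q * F q.1) ≠ 0
        rw [h9]
        have h11 : HM F K t p q * (r / 2) < 0 := mul_neg_of_neg_of_pos hneg (by linarith)
        have h12 : HM F K t p q * (r / 2) * F q.1 < 0 := mul_neg_of_neg_of_pos h11 h10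
        linarith
    rw [integral_neg] at h8
    linarith
  · intro f hf hfi ⟨R, hR⟩ M hM t ht p
    have hM0 : 0 ≤ M := (abs_nonneg _).trans (hM p)
    have h1 := ctr_le hpd htrig hser hjet hcmp hF hK hf hfi hR hM0
      (fun q => (abs_le.1 (hM q)).2) ht p
    have h2 := ctr_le hpd htrig hser hjet hcmp hF hK (f := fun z => -f z) hf.neg
      (fun q => by
        change -f (g0 q) = -f q
        rw [hfi q]) (R := R) (fun q hq => by
          change -f q = 0
          rw [hR q hq, neg_zero]) hM0
      (fun q => by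
        have := (abs_le.1 (hM q)).1
        change -f q ≤ M
        linarith) ht p
    have h3 : ∫ z in Str, HM F K t p z * (-f z) * F z.1 =
        -∫ z in Str, HM F K t p z * f z * F z.1 := by
      rw [← integral_neg]
      refine integral_congr_ae (Eventually.of_forall fun z => ?_)
      change HM F K t p z * (-f z) * F z.1 = _
      ring
    rw [h3] at h2
    rw [abs_le]
    exact ⟨by linarith, h1⟩

end Pool.Agent.H56.HK
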