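import Pool.Agent.H96.HK.Basic

/-! FLAT (helper56): geodesics are straight in the flat part. -/

open MeasureTheory Set Filter Topology
open Pool.Agent.H96.HK

namespace Pool.Agent.H56.HK

/-- two functions with a linear system on an interval -/
theorem flat_line (f g : ℝ → ℝ) (a b : ℝ) (hab : a ≤ b)
    (hf : ∀ r ∈ Icc a b, HasDerivAt f (g r) r) (hg : ∀ r ∈ Icc a b, HasDerivAt g 0 r) :
    f b = f a + (b - a) * g a := by
  have h1 : ∀ r ∈ Icc a b, g r = g a := by
    intro r hr
    refine constant_of_has_deriv_right_zero (fun x hx => (hg x hx).continuousAt.continuousWithinAt)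
      (fun x hx => (hg x (Ico_subset_Icc_self hx)).hasDerivWithinAt) r hr
  have h2 : ∀ r ∈ Icc a b, f r - (r - a) * g a = f a - (a - a) * g a := by
    intro r hr
    have h3 : ∀ x ∈ Icc a b, HasDerivAt (fun x => f x - (x - a) * g a) 0 x := by
      intro x hx
      have h4 := (hf x hx).sub (((hasDerivAt_id x).sub_const a).mul_const (g a))
      rw [one_mul, h1 x hx, sub_self] at h4
      exact h4
    exact constant_of_has_deriv_right_zero
      (f := fun x => f x - (x - a) * g a)
      (fun x hx => (h3 x hx).continuousAt.continuousWithinAt)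
      (fun x hx => (h3 x (Ico_subset_Icc_self hx)).hasDerivWithinAt) r hr
  have h5 := h2 b ⟨hab, le_rfl⟩
  rw [sub_self, zero_mul, sub_zero] at h5
  linarith

theorem flat (hfb : T_FB) : T_FLAT := by
  intro F hF c a b hg r1 r2 hr hS
  obtain ⟨K, hK⟩ := hfb F hF
  obtain ⟨hs, hp, ha, hb, hu⟩ := hg
  have hF1 : ∀ r ∈ Icc r1 r2, F (c r).1 = (c r).1 := fun r h => hF.eq_of_one_le (hS r h)
  have hF2 : ∀ r ∈ Icc r1 r2, deriv F (c r).1 = 1 := fun r h => hK.far1 _ (hS r h)
  -- derivatives
  have hom : ∀ r, HasDerivAt (fun r => (c r).2 - (c r1).2) (b r) r := fun r =>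
    (hp r).sub_const _
  have hcos : ∀ r, HasDerivAt (fun r => Real.cos ((c r).2 - (c r1).2))
      (-Real.sin ((c r).2 - (c r1).2) * b r) r := fun r => (hom r).cos
  have hsin : ∀ r, HasDerivAt (fun r => Real.sin ((c r).2 - (c r1).2))
      (Real.cos ((c r).2 - (c r1).2) * b r) r := fun r => (hom r).sin
  have key1 := flat_line (fun r => (c r).1 * Real.cos ((c r).2 - (c r1).2))
    (fun r => a r * Real.cos ((c r).2 - (c r1).2) -
      (c r).1 * b r * Real.sin ((c r).2 - (c r1).2)) r1 r2 hr
    (fun r h => by
      have h1 := (hs r).mul (hcos r)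
      refine h1.congr_deriv ?_
      ring)
    (fun r h => by
      have h1 := ((ha r).mul (hcos r)).sub (((hs r).mul (hb r)).mul (hsin r))
      refine h1.congr_deriv ?_
      rw [hF1 r h, hF2 r h]
      simp only [Pi.mul_apply]
      have h2 : (c r).1 ≠ 0 := by
        have := hS r h
        linarith
      field_simp
      ring)
  have key2 := flat_line (fun r => (c r).1 * Real.sin ((c r).2 - (c r1).2))
    (fun r => a r * Real.sin ((c r).2 - (c r1).2) +
      (c r).1 * b r * Real.cos ((c r).2 - (c r1).2)) r1 r2 hr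
    (fun r h => by
      have h1 := (hs r).mul (hsin r)
      refine h1.congr_deriv ?_
      ring)
    (fun r h => by
      have h1 := ((ha r).mul (hsin r)).add (((hs r).mul (hb r)).mul (hcos r))
      refine h1.congr_deriv ?_
      rw [hF1 r h, hF2 r h]
      simp only [Pi.mul_apply]
      have h2 : (c r).1 ≠ 0 := by
        have := hS r h
        linarith
      field_simp
      ring)
  simp only [sub_self, Real.cos_zero, Real.sin_zero, mul_one, mul_zero, sub_zero, zero_add]
    at key1 key2
  exact ⟨key1, key2⟩

end Pool.Agent.H56.HK
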