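import Pool.Agent.H96.HK.Basic

/-! GEO (helper56): minimal geodesics between two points. -/

open MeasureTheory Set Filter Topology
open Pool.Agent.H96.HK

namespace Pool.Agent.H56.HK

theorem geo (hfb : T_FB) (hflow : T_FLOW) (hjac : T_JAC) (hsurj : T_SURJ) (hmini : T_MINI) :
    T_GEO := by
  intro F hF p q
  obtain ⟨K, hK⟩ := hfb F hF
  obtain ⟨S, P, A, B, hfam⟩ := hflow F hF p.1
  obtain ⟨J, J', hJ⟩ := hjac F K hF hK p.1 S P A B hfam
  obtain ⟨r, θ, hr, hq⟩ := hsurj F K hF hK p.1 S P A B J J' hfam hJ (q.1, q.2 - p.2)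
  have hq1 : q.1 = S r θ := congrArg Prod.fst hq
  have hq2 : q.2 - p.2 = P r θ := congrArg Prod.snd hq
  have hg : IsGeod F (fun ρ => (S ρ θ, P ρ θ + p.2)) (fun ρ => A ρ θ) (fun ρ => B ρ θ) := by
    refine ⟨fun ρ => hfam.Sr ρ θ, fun ρ => ?_, fun ρ => hfam.Ar ρ θ, fun ρ => hfam.Br ρ θ,
      fun ρ => hfam.unit ρ θ⟩
    exact (hfam.Pr ρ θ).add_const p.2
  have h0 : (S 0 θ, P 0 θ + p.2) = p := by
    refine Prod.ext ?_ ?_
    · exact hfam.S0 θ
    · change P 0 θ + p.2 = p.2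
      rw [hfam.P0 θ, zero_add]
  have h1 : (S r θ, P r θ + p.2) = q := by
    refine Prod.ext ?_ ?_
    · exact hq1.symm
    · change P r θ + p.2 = q.2
      rw [← hq2]
      ring
  have hm := hmini F hF _ _ _ hg
  have hd : dd F p q = r := by
    have h2 := hm 0 r hr
    rw [h0, h1, sub_zero] at h2
    exact h2
  refine ⟨_, _, _, hg, h0, ?_, fun r1 r2 _ h => hm r1 r2 h⟩
  rw [hd]
  exact h1

end Pool.Agent.H56.HK
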