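import Pool.Agent.H56.HK.CTR

/-! HKEX (helper56): existence of the heat kernel of the surface. -/

open MeasureTheory Set Filter Topology
open Pool.Agent.H96.HK

namespace Pool.Agent.H56.HK

theorem hkex (hbet : T_BET) (hvm : T_VM) (hser1 : T_SER1) (hser2 : T_SER2) (hunf : T_UNF)
    (htrig : T_TRIG) (hpd : T_PD) (hctr : T_CTR) : T_HKEX := by
  intro F hF
  obtain ⟨C, hC1, hC⟩ := hvm F hF
  have hex : ∀ m : ℕ, ∃ K, ∃ B, 1 ≤ B ∧ (∀ s, |Vm F m s| ≤ B) ∧ Ker (Vm F m) B K := by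
    intro m
    obtain ⟨h1, -, h3⟩ := hC m
    have hcont : Continuous (Vm F m) := by
      have hL : 0 ≤ C * (1 + (m : ℝ) ^ 2) := by positivity
      refine (LipschitzWith.of_dist_le_mul (K := ⟨C * (1 + (m : ℝ) ^ 2), hL⟩) fun s r => ?_).continuous
      rw [Real.dist_eq, Real.dist_eq]
      exact h3 s r
    obtain ⟨K, hK⟩ := hbet (Vm F m) (C * (1 + (m : ℝ) ^ 2)) hcont h1
    refine ⟨K, C * (1 + (m : ℝ) ^ 2), ?_, h1, hK⟩
    have h4 : (0 : ℝ) ≤ (m : ℝ) ^ 2 := by positivity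
    nlinarith
  choose K hK using hex
  have hM : Modes F K := hK
  obtain ⟨hc, hs, hi⟩ := hser1 F K hF hM
  obtain ⟨hnn, hcon⟩ := hctr F K hF hM
  refine ⟨HM F K, hnn, hs, hi, hc, hser2 F K hF hM, ?_⟩
  intro ψ hψ hψs T hT η hη
  have hFc : Continuous (fun z : X => F z.1) := hF.continuous.comp continuous_fst
  obtain ⟨hf1, hf2, ⟨R, hf3⟩, -⟩ := hunf F hF (fun _ => 0) continuous_const
    (fun _ => rfl) ψ hψ hψs
  obtain ⟨N, a, b, ha, hb, hab, hfab⟩ := htrig (fun p => ∑' k : ℤ, ψ (gk k p)) hf1 hf2 R hf3 η hη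
  obtain ⟨hnice, hu0, hut⟩ := hpd F K hF hM N a b ha hb
  obtain ⟨htc, hti⟩ := trg_facts hpd hF hM (N := N) ha hb
  have ht0 : ∀ q : X, R ≤ |q.1| → trg N a b q = 0 := by
    intro q hq
    unfold trg
    refine Finset.sum_eq_zero fun n _ => ?_
    obtain ⟨h1, h2⟩ := hab n q.1 hq
    rw [h1, h2, zero_mul, zero_mul, add_zero]
  refine ⟨utr F K N a b, hnice, fun p => ?_, fun t ht p => ?_⟩
  · rw [hu0 p, abs_sub_comm]
    exact hfab p
  · have hHc := hm_cont_right hser1 hF hM ht.1 p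
    obtain ⟨-, -, -, h4⟩ := hunf F hF (fun z => HM F K t p z) hHc
      (hm_inv_right hser1 hF hM ht.1 p) ψ hψ hψs
    rw [h4, hut t ht.1 p]
    have hi1 : IntegrableOn (fun z => HM F K t p z * (∑' k : ℤ, ψ (gk k z)) * F z.1) Str := by
      refine str_int ((hHc.mul hf1).mul hFc) R fun z hz => ?_
      change HM F K t p z * (∑' k : ℤ, ψ (gk k z)) * F z.1 = 0
      rw [hf3 z hz, mul_zero, zero_mul]
    have hi2 : IntegrableOn (fun z => HM F K t p z * trg N a b z * F z.1) Str := by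
      refine str_int ((hHc.mul htc).mul hFc) R fun z hz => ?_
      change HM F K t p z * trg N a b z * F z.1 = 0
      rw [ht0 z hz, mul_zero, zero_mul]
    rw [← integral_sub hi2 hi1]
    have h5 := hcon (fun z => trg N a b z - ∑' k : ℤ, ψ (gk k z)) (htc.sub hf1) (fun z => by
      have h6 : ∑' k : ℤ, ψ (gk k (g0 z)) = ∑' k : ℤ, ψ (gk k z) := hf2 z
      change trg N a b (g0 z) - ∑' k : ℤ, ψ (gk k (g0 z)) = trg N a b z - ∑' k : ℤ, ψ (gk k z)
      rw [h6, hti z]) ⟨R, fun z hz => by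
        change trg N a b z - ∑' k : ℤ, ψ (gk k z) = 0
        rw [ht0 z hz, hf3 z hz, sub_zero]⟩ η (fun z => by
          rw [abs_sub_comm]
          exact hfab z) t ht.1 p
    refine le_trans (le_of_eq ?_) h5
    congr 1
    refine integral_congr_ae (Eventually.of_forall fun z => ?_)
    change HM F K t p z * trg N a b z * F z.1 - HM F K t p z * (∑' k : ℤ, ψ (gk k z)) * F z.1 =
      HM F K t p z * (trg N a b z - ∑' k : ℤ, ψ (gk k z)) * F z.1
    ring

end Pool.Agent.H56.HK
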