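import Pool.Agent.H96.HK.Basic

/-! KEV (helper56): kernels of even potentials are even. -/

open MeasureTheory Set Filter Topology
open Pool.Agent.H96.HK

namespace Pool.Agent.H56.HK

theorem kev_gg (t x : ℝ) : gg t (-x) = gg t x := by
  unfold gg
  rw [neg_sq]

theorem kev_ker {V : ℝ → ℝ} {B : ℝ} {K : ℝ → ℝ → ℝ → ℝ} (hV : ∀ s, V (-s) = V s)
    (h : Ker V B K) : Ker V B (fun t s r => K t (-s) (-r)) := by
  refine ⟨?_, ?_, ?_⟩
  · have h1 : ContinuousOn (fun z : ℝ × ℝ × ℝ => ((z.1, -z.2.1, -z.2.2) : ℝ × ℝ × ℝ))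
        (Ioi 0 ×ˢ univ) := by fun_prop
    exact h.cont.comp h1 (fun z hz => ⟨hz.1, mem_univ _⟩)
  · intro t ht s r
    have h1 := h.bdd t ht (-s) (-r)
    have h2 : -s - -r = -(s - r) := by ring
    rwa [h2, kev_gg] at h1
  · intro t ht s r
    have h1 := h.duh t ht (-s) (-r)
    have h2 : -s - -r = -(s - r) := by ring
    rw [h2, kev_gg] at h1
    refine h1.trans ?_
    congr 1
    refine intervalIntegral.integral_congr fun τ _ => ?_
    change ∫ x, gg (t - τ) (-s - x) * V x * K τ x (-r) =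
      ∫ x, gg (t - τ) (s - x) * V x * K τ (-x) (-r)
    rw [← integral_neg_eq_self]
    refine integral_congr_ae (Eventually.of_forall fun x => ?_)
    change gg (t - τ) (-s - -x) * V (-x) * K τ (-x) (-r) = _
    have h3 : -s - -x = -(s - x) := by ring
    rw [h3, kev_gg, hV]

theorem kev (hsym : T_SYM) : T_KEV := by
  intro V B K hc hB hV hK t ht s r
  have h1 := hsym V B B B K _ hc hB hK (kev_ker hV hK) t ht s r
  have h2 := hsym V B B B K K hc hB hK hK t ht (-r) (-s)
  exact (h1.trans h2).symm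

end Pool.Agent.H56.HK
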